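import Pool.Agent.R612.HG.Defs

/-!
The order of the roots of unity, and its transfer to the models of `T_{m,p}`.
-/

set_option autoImplicit false

universe u

namespace Pool.Agent.R612.HG

open FirstOrder FirstOrder.Language

theorem exp_inj {a b : ℝ} (ha : 0 ≤ a) (ha' : a < 1) (hb : 0 ≤ b) (hb' : b < 1)
    (h : Complex.exp (2 * Real.pi * Complex.I * a) = Complex.exp (2 * Real.pi * Complex.I * b)) :
    a = b := by
  rw [Complex.exp_eq_exp_iff_exists_int] at h
  obtain ⟨n, hn⟩ := h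
  have h1 : (2 * Real.pi * Complex.I : ℂ) ≠ 0 := by
    refine mul_ne_zero (mul_ne_zero two_ne_zero ?_) Complex.I_ne_zero
    exact_mod_cast Real.pi_ne_zero
  have h2 : (a : ℂ) = b + n := by
    have : (2 * Real.pi * Complex.I : ℂ) * a = (2 * Real.pi * Complex.I) * (b + n) := by
      rw [hn]
      ring
    exact mul_left_cancel₀ h1 this
  have h3 : a = b + n := by exact_mod_cast h2
  have h4 : (n : ℝ) < 1 := by linarith
  have h5 : (-1 : ℝ) < n := by linarith
  have h6 : n < 1 := by exact_mod_cast h4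
  have h7 : -1 < n := by exact_mod_cast h5
  have h8 : n = 0 := by omega
  rw [h3, h8]
  simp

theorem exists_rep {p : ℕ} (v : RootsU p) : ∃ a : ℝ, 0 ≤ a ∧ a < 1 ∧
    ((v : ℂˣ) : ℂ) = Complex.exp (2 * Real.pi * Complex.I * a) := by
  obtain ⟨v, n, hn, -, hv⟩ := v
  have h1 : ((v : ℂˣ) : ℂ) ^ n = 1 := by
    rw [← Units.val_pow_eq_pow_val, hv, Units.val_one]
  have h2 : ‖((v : ℂˣ) : ℂ)‖ = 1 := Complex.norm_eq_one_of_pow_eq_one h1 hn.ne'
  have h3 := Complex.norm_mul_exp_arg_mul_I ((v : ℂˣ) : ℂ)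
  rw [h2, Complex.ofReal_one, one_mul] at h3
  refine ⟨Int.fract (Complex.arg ((v : ℂˣ) : ℂ) / (2 * Real.pi)), Int.fract_nonneg _,
    Int.fract_lt_one _, ?_⟩
  show ((v : ℂˣ) : ℂ) = _
  conv_lhs => rw [← h3]
  rw [Complex.exp_eq_exp_iff_exists_int]
  refine ⟨⌊Complex.arg ((v : ℂˣ) : ℂ) / (2 * Real.pi)⌋, ?_⟩
  have hpi : (Real.pi : ℂ) ≠ 0 := by exact_mod_cast Real.pi_ne_zero
  simp only [Int.fract]
  push_cast
  field_simp
  ring

/-- the position on the circle -/
noncomputable def pos {p : ℕ} (v : RootsU p) : ℝ := Classical.choose (exists_rep v)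

theorem pos_nonneg {p : ℕ} (v : RootsU p) : 0 ≤ pos v := (Classical.choose_spec (exists_rep v)).1

theorem pos_lt_one {p : ℕ} (v : RootsU p) : pos v < 1 := (Classical.choose_spec (exists_rep v)).2.1

theorem pos_spec {p : ℕ} (v : RootsU p) :
    ((v : ℂˣ) : ℂ) = Complex.exp (2 * Real.pi * Complex.I * pos v) :=
  (Classical.choose_spec (exists_rep v)).2.2

theorem ltU_iff {p : ℕ} (v w : RootsU p) : ltU p v w ↔ pos v < pos w := by
  constructor
  · rintro ⟨a, b, ha, hab, hb, h1, h2⟩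
    have e1 : a = pos v := exp_inj ha (hab.trans hb) (pos_nonneg v) (pos_lt_one v)
      (h1.symm.trans (pos_spec v))
    have e2 : b = pos w := exp_inj (ha.trans hab.le) hb (pos_nonneg w) (pos_lt_one w)
      (h2.symm.trans (pos_spec w))
    rw [← e1, ← e2]
    exact hab
  · intro h
    exact ⟨pos v, pos w, pos_nonneg v, h, pos_lt_one w, pos_spec v, pos_spec w⟩

theorem pos_inj {p : ℕ} {v w : RootsU p} (h : pos v = pos w) : v = w := by
  apply Subtype.ext
  apply Units.ext
  rw [pos_spec, pos_spec, h]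

theorem exists_between' (p : ℕ) {a b : ℝ} (ha : 0 ≤ a) (hab : a < b) (hb : b ≤ 1) :
    ∃ v : RootsU p, a < pos v ∧ pos v < b := by
  obtain ⟨N, hN⟩ := exists_nat_gt (1 / (b - a))
  have hN0 : 0 < N := by
    rcases Nat.eq_zero_or_pos N with h | h
    · subst h
      have : 0 < 1 / (b - a) := one_div_pos.2 (by linarith)
      rw [Nat.cast_zero] at hN
      linarith
    · exact h
  obtain ⟨n, hn, hnp, hnN⟩ : ∃ n : ℕ, 0 < n ∧ (p = 0 ∨ n.Coprime p) ∧ N ≤ n := by
    rcases Nat.eq_zero_or_pos p with h | h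
    · exact ⟨N, hN0, Or.inl h, le_rfl⟩
    · refine ⟨p * N + 1, Nat.succ_pos _, Or.inr ?_, ?_⟩
      · rw [Nat.coprime_comm]
        simp
      · nlinarith
  have hn' : (0 : ℝ) < n := by exact_mod_cast hn
  have h1 : 1 < n * (b - a) := by
    rw [div_lt_iff₀ (by linarith)] at hN
    have : (N : ℝ) ≤ n := by exact_mod_cast hnN
    nlinarith
  obtain ⟨m, hm1, hm2⟩ : ∃ m : ℤ, n * a < m ∧ (m : ℝ) < n * b := by
    refine ⟨⌊(n : ℝ) * a⌋ + 1, ?_, ?_⟩
    · push_cast
      exact Int.lt_floor_add_one _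
    · push_cast
      have := Int.floor_le ((n : ℝ) * a)
      linarith
  have hm3 : a < m / n := by
    rw [lt_div_iff₀ hn']
    linarith
  have hm4 : (m / n : ℝ) < b := by
    rw [div_lt_iff₀ hn']
    linarith
  set v : ℂˣ := Units.mk0 (Complex.exp (2 * Real.pi * Complex.I * (m / n : ℝ)))
    (Complex.exp_ne_zero _) with hv
  have hvn : v ^ n = 1 := by
    apply Units.ext
    rw [Units.val_pow_eq_pow_val, hv, Units.val_mk0, Units.val_one, ← Complex.exp_nat_mul,
      Complex.exp_eq_one_iff]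
    refine ⟨m, ?_⟩
    have : (n : ℂ) ≠ 0 := by exact_mod_cast hn.ne'
    push_cast
    field_simp
  refine ⟨⟨v, n, hn, hnp, hvn⟩, ?_⟩
  have e0 : Complex.exp (2 * Real.pi * Complex.I * (m / n : ℝ)) =
      Complex.exp (2 * Real.pi * Complex.I * pos (⟨v, n, hn, hnp, hvn⟩ : RootsU p)) := by
    rw [← pos_spec]
    rfl
  have e : (m / n : ℝ) = pos (⟨v, n, hn, hnp, hvn⟩ : RootsU p) :=
    exp_inj (by linarith) (by linarith) (pos_nonneg _) (pos_lt_one _) e0
  rw [← e]
  exact ⟨hm3, hm4⟩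

/-! ### Sentences -/

/-- the atomic formula `s < t` -/
def ltF {α : Type} {n : ℕ} (s t : LM.Term (α ⊕ Fin n)) : LM.BoundedFormula α n :=
  Relations.boundedFormula₂ (Rel.lt : LM.Relations 2) s t

theorem realize_ltF {M : Type u} [LM.Structure M] {α : Type} {n : ℕ} (s t : LM.Term (α ⊕ Fin n))
    (v : α → M) (xs : Fin n → M) : (ltF s t).Realize v xs ↔
      @Structure.RelMap LM M _ 2 Rel.lt ![s.realize (Sum.elim v xs),
        t.realize (Sum.elim v xs)] := BoundedFormula.realize_rel₂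

def sTrich : LM.Sentence := ∀' ∀' (ltF &0 &1 ⊔ (Term.bdEqual &0 &1 ⊔ ltF &1 &0))

def sIrrefl : LM.Sentence := ∀' ∼(ltF &0 &0)

def sTrans : LM.Sentence := ∀' ∀' ∀' (ltF &0 &1 ⟹ (ltF &1 &2 ⟹ ltF &0 &2))

def sNoMax : LM.Sentence := ∀' ∃' (ltF &0 &1)

def sDense : LM.Sentence := ∀' ∀' (ltF &0 &1 ⟹ ∃' (ltF &0 &2 ⊓ ltF &2 &1))

theorem realize_sTrich (M : Type u) [LM.Structure M] : M ⊨ sTrich ↔ ∀ x y : M,
    @Structure.RelMap LM M _ 2 Rel.lt ![x, y] ∨ (x = y ∨
      @Structure.RelMap LM M _ 2 Rel.lt ![y, x]) := by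
  refine forall_congr' fun x => forall_congr' fun y => ?_
  exact BoundedFormula.realize_sup.trans (or_congr BoundedFormula.realize_rel₂
    (BoundedFormula.realize_sup.trans
      (or_congr (BoundedFormula.realize_bdEqual _ _) BoundedFormula.realize_rel₂)))

theorem realize_sIrrefl (M : Type u) [LM.Structure M] : M ⊨ sIrrefl ↔ ∀ x : M,
    ¬ @Structure.RelMap LM M _ 2 Rel.lt ![x, x] :=
  forall_congr' fun _ => not_congr BoundedFormula.realize_rel₂

theorem realize_sTrans (M : Type u) [LM.Structure M] : M ⊨ sTrans ↔ ∀ x y z : M,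
    @Structure.RelMap LM M _ 2 Rel.lt ![x, y] →
      @Structure.RelMap LM M _ 2 Rel.lt ![y, z] →
        @Structure.RelMap LM M _ 2 Rel.lt ![x, z] :=
  forall_congr' fun _ => forall_congr' fun _ => forall_congr' fun _ =>
    imp_congr BoundedFormula.realize_rel₂ (imp_congr BoundedFormula.realize_rel₂
      BoundedFormula.realize_rel₂)

theorem realize_sNoMax (M : Type u) [LM.Structure M] : M ⊨ sNoMax ↔ ∀ x : M, ∃ y : M,
    @Structure.RelMap LM M _ 2 Rel.lt ![x, y] :=
  forall_congr' fun _ => BoundedFormula.realize_ex.trans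
    (exists_congr fun _ => BoundedFormula.realize_rel₂)

theorem realize_sDense (M : Type u) [LM.Structure M] : M ⊨ sDense ↔ ∀ x y : M,
    @Structure.RelMap LM M _ 2 Rel.lt ![x, y] → ∃ z : M,
      @Structure.RelMap LM M _ 2 Rel.lt ![x, z] ∧
        @Structure.RelMap LM M _ 2 Rel.lt ![z, y] :=
  forall_congr' fun _ => forall_congr' fun _ => imp_congr BoundedFormula.realize_rel₂
    (BoundedFormula.realize_ex.trans (exists_congr fun _ => BoundedFormula.realize_inf.trans
      (and_congr BoundedFormula.realize_rel₂ BoundedFormula.realize_rel₂)))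

/-- the properties of the order which are used -/
structure OrdFacts {G : Type u} (lt : G → G → Prop) : Prop where
  trich : ∀ x y, lt x y ∨ (x = y ∨ lt y x)
  irrefl : ∀ x, ¬ lt x x
  trans : ∀ x y z, lt x y → lt y z → lt x z
  noMax : ∀ x, ∃ y, lt x y
  dense : ∀ x y, lt x y → ∃ z, lt x z ∧ lt z y

theorem ordFacts_iff {G : Type u} [Group G] (lt : G → G → Prop)
    (P : (n : ℕ) → Fin n → G → Prop) : OrdFacts lt ↔
      (@Sentence.Realize LM G (strM lt P) sTrich ∧ @Sentence.Realize LM G (strM lt P) sIrrefl ∧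
      @Sentence.Realize LM G (strM lt P) sTrans ∧ @Sentence.Realize LM G (strM lt P) sNoMax ∧
      @Sentence.Realize LM G (strM lt P) sDense) := by
  let _ : LM.Structure G := strM lt P
  constructor
  · rintro ⟨h1, h2, h3, h4, h5⟩
    exact ⟨(realize_sTrich G).2 h1, (realize_sIrrefl G).2 h2, (realize_sTrans G).2 h3,
      (realize_sNoMax G).2 h4, (realize_sDense G).2 h5⟩
  · rintro ⟨h1, h2, h3, h4, h5⟩
    exact ⟨(realize_sTrich G).1 h1, (realize_sIrrefl G).1 h2, (realize_sTrans G).1 h3,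
      (realize_sNoMax G).1 h4, (realize_sDense G).1 h5⟩

theorem ordFacts_U (p : ℕ) : OrdFacts (ltU p) where
  trich := fun x y => by
    rw [ltU_iff, ltU_iff]
    rcases lt_trichotomy (pos x) (pos y) with h | h | h
    · exact Or.inl h
    · exact Or.inr (Or.inl (pos_inj h))
    · exact Or.inr (Or.inr h)
  irrefl := fun x => by
    rw [ltU_iff]
    exact lt_irrefl _
  trans := fun x y z => by
    rw [ltU_iff, ltU_iff, ltU_iff]
    exact lt_trans
  noMax := fun x => by
    obtain ⟨v, hv, -⟩ := exists_between' p (pos_nonneg x) (pos_lt_one x) le_rfl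
    exact ⟨v, (ltU_iff _ _).2 hv⟩
  dense := fun x y h => by
    rw [ltU_iff] at h
    obtain ⟨v, hv, hv'⟩ := exists_between' p (pos_nonneg x) h (pos_lt_one y).le
    exact ⟨v, (ltU_iff _ _).2 hv, (ltU_iff _ _).2 hv'⟩

/-- the transfer of sentences -/
theorem transfer {p : ℕ} {G : Type u} (S : LM.Structure G) (h : @Theory.Model LM G S (TM p))
    (φ : LM.Sentence) (hφ : @Sentence.Realize LM (RootsU p) (strM (ltU p) (PP (ltU p))) φ) :
    @Sentence.Realize LM G S φ :=
  h.realize_of_mem φ hφ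

theorem IsACFO.ordFacts {F : Type u} [Field F] {lt : Fˣ → Fˣ → Prop}
    {P : (n : ℕ) → Fin n → Fˣ → Prop} (h : IsACFO F lt P) : OrdFacts lt := by
  obtain ⟨p, -, -, hp⟩ := h.theory
  have h1 := (ordFacts_iff (ltU p) (PP (ltU p))).1 (ordFacts_U p)
  refine (ordFacts_iff lt P).2 ⟨?_, ?_, ?_, ?_, ?_⟩
  · exact transfer _ hp _ h1.1
  · exact transfer _ hp _ h1.2.1
  · exact transfer _ hp _ h1.2.2.1
  · exact transfer _ hp _ h1.2.2.2.1
  · exact transfer _ hp _ h1.2.2.2.2

end Pool.Agent.R612.HG
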