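import Mathlib

/-!
Definitions: the theory ACFO and random hypergraphs.
-/

set_option autoImplicit false

universe u

namespace Pool.Agent.R612.HG

open FirstOrder FirstOrder.Language

/-- The group `𝕌_(p)` of the complex roots of unity of order prime to `p`; all roots of unity for
`p = 0`. -/
def RootsU (p : ℕ) : Subgroup ℂˣ where
  carrier := {u | ∃ n : ℕ, 0 < n ∧ (p = 0 ∨ n.Coprime p) ∧ u ^ n = 1}
  mul_mem' := by
    rintro a b ⟨n, hn, hnp, ha⟩ ⟨m, hm, hmp, hb⟩
    refine ⟨n * m, Nat.mul_pos hn hm, ?_, ?_⟩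
    · rcases hnp with h | h
      · exact Or.inl h
      · rcases hmp with h' | h'
        · exact Or.inl h'
        · exact Or.inr (h.mul_left h')
    · rw [mul_pow, pow_mul, ha, one_pow, one_mul, mul_comm, pow_mul, hb, one_pow]
  one_mem' := ⟨1, one_pos, Or.inr (Nat.coprime_one_left p), one_pow 1⟩
  inv_mem' := by
    rintro a ⟨n, hn, hnp, ha⟩
    exact ⟨n, hn, hnp, by rw [inv_pow, ha, inv_one]⟩

/-- The order of `[0, 1)`, identified with the unit circle by `a ↦ exp (2 π i a)`. -/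
def CircLt (c d : ℂˣ) : Prop :=
  ∃ a b : ℝ, 0 ≤ a ∧ a < b ∧ b < 1 ∧ (c : ℂ) = Complex.exp (2 * Real.pi * Complex.I * a) ∧
    (d : ℂ) = Complex.exp (2 * Real.pi * Complex.I * b)

/-- The winding number `wn(c, n)`: the number of the `k`, `0 ≤ k ≤ n - 1`, such that
`c ^ (k + 1) < c ^ k`. -/
noncomputable def wn {G : Type} [Group G] (lt : G → G → Prop) (c : G) (n : ℕ) : ℕ :=
  {k : ℕ | k < n ∧ lt (c ^ (k + 1)) (c ^ k)}.ncard

/-- The set `𝒫^r_n = {a : ∃ c, c ^ n = a, wn(c, n) = r}`, `0 ≤ r ≤ n - 1`. -/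
def PP {G : Type} [Group G] (lt : G → G → Prop) (n : ℕ) (r : Fin n) (a : G) : Prop :=
  ∃ c : G, c ^ n = a ∧ wn lt c n = r

/-- Function symbols of the group language. -/
inductive FunM : ℕ → Type
  | one : FunM 0
  | inv : FunM 1
  | mul : FunM 2

/-- Function symbols of the ring language. -/
inductive FunC : ℕ → Type
  | zero : FunC 0
  | one : FunC 0
  | neg : FunC 1
  | add : FunC 2
  | mul : FunC 2

/-- The relation symbols: `<` and `𝒫^r_n` for `0 ≤ r ≤ n - 1`. -/
inductive Rel : ℕ → Type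
  | lt : Rel 2
  | P (n : ℕ) (r : Fin n) : Rel 1

/-- The language `L_m`. -/
abbrev LM : FirstOrder.Language.{0, 0} := ⟨FunM, Rel⟩

/-- The language `L_c`. -/
abbrev LC : FirstOrder.Language.{0, 0} := ⟨FunC, Rel⟩

/-- The `L_m`-structure on a group given by a binary relation and by unary relations. -/
abbrev strM {G : Type u} [Group G] (lt : G → G → Prop) (P : (n : ℕ) → Fin n → G → Prop) :
    LM.Structure G where
  funMap := fun {_} f v => match f with
    | FunM.one => 1
    | FunM.inv => (v 0)⁻¹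
    | FunM.mul => v 0 * v 1
  RelMap := fun {_} r v => match r with
    | Rel.lt => lt (v 0) (v 1)
    | Rel.P n r => P n r (v 0)

/-- The `L_c`-structure on a field given by a binary relation and by unary relations on its
multiplicative group. -/
abbrev strC {F : Type u} [Field F] (lt : Fˣ → Fˣ → Prop) (P : (n : ℕ) → Fin n → Fˣ → Prop) :
    LC.Structure F where
  funMap := fun {_} f v => match f with
    | FunC.zero => 0
    | FunC.one => 1
    | FunC.neg => - v 0
    | FunC.add => v 0 + v 1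
    | FunC.mul => v 0 * v 1
  RelMap := fun {_} r v => match r with
    | Rel.lt => ∃ a b : Fˣ, (a : F) = v 0 ∧ (b : F) = v 1 ∧ lt a b
    | Rel.P n r => ∃ a : Fˣ, (a : F) = v 0 ∧ P n r a

/-- The order of `[0, 1)` on `𝕌_(p)`. -/
def ltU (p : ℕ) (c d : RootsU p) : Prop := CircLt c d

/-- The theory `T_{m,p}` of `(𝕌_(p); <, 𝒫)`. -/
def TM (p : ℕ) : LM.Theory :=
  @FirstOrder.Language.completeTheory LM (RootsU p) (strM (ltU p) (PP (ltU p)))

/-- A quasi-affine variety in `F ^ m`: a nonempty Zariski-open subset of an irreducible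
Zariski-closed subset. -/
def QuasiAffine {F : Type u} [Field F] {m : ℕ} (V : Set (Fin m → F)) : Prop :=
  V.Nonempty ∧ ∃ P Q : Ideal (MvPolynomial (Fin m) F), P.IsPrime ∧
    V = {x | (∀ f ∈ P, MvPolynomial.eval x f = 0) ∧ ¬ ∀ f ∈ Q, MvPolynomial.eval x f = 0}

/-- The points of `V` with nonzero coordinates. -/
def unitPts {F : Type u} [Field F] {m : ℕ} (V : Set (Fin m → F)) : Set (Fin m → Fˣ) :=
  {x | (fun i => (x i : F)) ∈ V}

/-- `V` is multiplicatively large. -/
def MultLarge {F : Type u} [Field F] {m : ℕ} (V : Set (Fin m → F)) : Prop :=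
  ∀ k : Fin m → ℤ, k ≠ 0 → ∀ c : Fˣ, ¬ unitPts V ⊆ {x | ∏ i, x i ^ k i = c}

/-- The order topology on `F^×`, with the basis of the sets `{a : 1 ≤ a < c'}` and
`{a : c < a < c'}`. -/
abbrev ordTop {F : Type u} [Field F] (lt : Fˣ → Fˣ → Prop) : TopologicalSpace Fˣ :=
  TopologicalSpace.generateFrom
    ({S | ∃ c', S = {a | (a = 1 ∨ lt 1 a) ∧ lt a c'}} ∪ {S | ∃ c c', S = {a | lt c a ∧ lt a c'}})

/-- The set `S` is dense in `(F^×) ^ m` for the product of the order topologies. -/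
def OrdDense {F : Type u} [Field F] (lt : Fˣ → Fˣ → Prop) {m : ℕ} (S : Set (Fin m → Fˣ)) : Prop :=
  @Dense (Fin m → Fˣ) (@Pi.topologicalSpace (Fin m) (fun _ => Fˣ) (fun _ => ordTop lt)) S

/-- `(F; <, 𝒫)` is a model of ACFO. -/
structure IsACFO (F : Type u) [Field F] (lt : Fˣ → Fˣ → Prop) (P : (n : ℕ) → Fin n → Fˣ → Prop) :
    Prop where
  algClosed : IsAlgClosed F
  theory : ∃ p : ℕ, (p.Prime ∨ p = 0) ∧ CharP F p ∧ @Theory.Model LM Fˣ (strM lt P) (TM p)
  generic : ∀ (m : ℕ) (V : Set (Fin m → F)), QuasiAffine V → MultLarge V → OrdDense lt (unitPts V)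

/-- `(X, R)` is a random `(n + 1)`-hypergraph: `R` is symmetric and holds only for tuples of
distinct elements, and for all finite disjoint families `𝒜`, `ℬ` of `n`-subsets of `X` there is a
`v` outside of all of them with `R(v, a)` for the members `a` of `𝒜` and not `R(v, b)` for the
members `b` of `ℬ`. -/
structure IsRandomHypergraph {X : Type u} {n : ℕ} (R : (Fin (n + 1) → X) → Prop) : Prop where
  symm : ∀ (σ : Equiv.Perm (Fin (n + 1))) (x : Fin (n + 1) → X), R x → R (x ∘ σ)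
  distinct : ∀ x : Fin (n + 1) → X, R x → Function.Injective x
  extension : ∀ 𝒜 ℬ : Set (Set X), 𝒜.Finite → ℬ.Finite → Disjoint 𝒜 ℬ →
    (∀ s ∈ 𝒜 ∪ ℬ, s.Finite ∧ s.ncard = n) → ∃ v : X, (∀ s ∈ 𝒜 ∪ ℬ, v ∉ s) ∧
      (∀ a : Fin n → X, Function.Injective a → Set.range a ∈ 𝒜 → R (Fin.cons v a)) ∧
      (∀ b : Fin n → X, Function.Injective b → Set.range b ∈ ℬ → ¬ R (Fin.cons v b))

/-- The structure `M` interprets a random `(n + 1)`-hypergraph: there are a set `D ⊆ M ^ d`, an
equivalence relation `E` on `D` and a relation `R` on `D / E`, definable with parameters, such that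
`(D / E, R)` is a random `(n + 1)`-hypergraph. -/
def InterpretsRandomHypergraph (L : FirstOrder.Language.{0, 0}) (M : Type u) (S : L.Structure M)
    (n : ℕ) : Prop :=
  ∃ (d : ℕ) (D : Set (Fin d → M)) (E : Setoid D) (R : (Fin (n + 1) → Quotient E) → Prop),
    (Set.univ : Set M).Definable L D ∧
    (Set.univ : Set M).Definable L {w : Fin 2 × Fin d → M |
      ∃ (h₀ : (fun i => w (0, i)) ∈ D) (h₁ : (fun i => w (1, i)) ∈ D), E ⟨_, h₀⟩ ⟨_, h₁⟩} ∧
    (Set.univ : Set M).Definable L {w : Fin (n + 1) × Fin d → M |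
      ∃ h : ∀ j, (fun i => w (j, i)) ∈ D, R fun j => Quotient.mk E ⟨_, h j⟩} ∧
    IsRandomHypergraph R

end Pool.Agent.R612.HG
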