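import Pool.Agent.R612.HG.Graph

/-!
Definability of the hypergraph.
-/

set_option autoImplicit false

universe u

namespace Pool.Agent.R612.HG

open FirstOrder FirstOrder.Language Set

variable {F : Type u} [Field F] (lt : Fˣ → Fˣ → Prop) (P : (n : ℕ) → Fin n → Fˣ → Prop)

/-- definable sets of the structure -/
def DS {κ : Type} (s : Set (κ → F)) : Prop := @Set.Definable F Set.univ LC (strC lt P) κ s

/-- definable functions of the structure -/
def DF {κ : Type} (f : (κ → F) → F) : Prop := @Set.DefinableFun F LC (strC lt P) κ Set.univ f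

variable {lt P}

theorem DF.var {κ : Type} (i : κ) : DF lt P fun w : κ → F => w i := by
  let _ := strC lt P
  exact DefinableFun.proj LC

theorem DF.const {κ : Type} (c : F) : DF lt P fun _ : κ → F => c := by
  let _ := strC lt P
  exact definableFun_const LC κ (Set.mem_univ c)

theorem DF.add {κ : Type} {f g : (κ → F) → F} (hf : DF lt P f) (hg : DF lt P g) :
    DF lt P fun w => f w + g w := by
  let _ := strC lt P
  have h0 : (Set.univ : Set F).DefinableFun LC
      (@Structure.funMap LC F _ 2 FunC.add) :=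
    (DefinableFun.fun_symbol (L := LC) (M := F) FunC.add).of_empty
  exact DefinableFun.comp (g := fun w => ![f w, g w]) (by
    intro i
    fin_cases i
    · exact hf
    · exact hg) h0

theorem DF.mul {κ : Type} {f g : (κ → F) → F} (hf : DF lt P f) (hg : DF lt P g) :
    DF lt P fun w => f w * g w := by
  let _ := strC lt P
  have h0 : (Set.univ : Set F).DefinableFun LC
      (@Structure.funMap LC F _ 2 FunC.mul) :=
    (DefinableFun.fun_symbol (L := LC) (M := F) FunC.mul).of_empty
  exact DefinableFun.comp (g := fun w => ![f w, g w]) (by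
    intro i
    fin_cases i
    · exact hf
    · exact hg) h0

theorem DF.pow {κ : Type} {f : (κ → F) → F} (hf : DF lt P f) (n : ℕ) :
    DF lt P fun w => f w ^ n := by
  induction n with
  | zero =>
    have := DF.const (lt := lt) (P := P) (κ := κ) (1 : F)
    simpa only [pow_zero] using this
  | succ n ih =>
    have := ih.mul hf
    simpa only [pow_succ] using this

theorem DF.sum {κ ι : Type} (s : Finset ι) {f : ι → (κ → F) → F} (hf : ∀ i, DF lt P (f i)) :
    DF lt P fun w => ∑ i ∈ s, f i w := by
  classical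
  induction s using Finset.induction_on with
  | empty =>
    have := DF.const (lt := lt) (P := P) (κ := κ) (0 : F)
    simpa only [Finset.sum_empty] using this
  | insert a s ha ih =>
    have := (hf a).add ih
    simpa only [Finset.sum_insert ha] using this

theorem DS.ltR {κ : Type} {f g : (κ → F) → F} (hf : DF lt P f) (hg : DF lt P g) :
    DS lt P {w | Pool.Agent.R612.HG.ltR lt (f w) (g w)} := by
  let _ := strC lt P
  have h0 : (Set.univ : Set F).Definable LC
      {x : Fin 2 → F | Pool.Agent.R612.HG.ltR lt (x 0) (x 1)} := by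
    refine Set.Definable.mono (A := ∅) ?_ (Set.empty_subset _)
    refine Set.empty_definable_iff.2
      ⟨Relations.formula₂ (Rel.lt : LC.Relations 2) (Term.var 0) (Term.var 1), ?_⟩
    ext x
    exact (Formula.realize_rel₂ (L := LC) (M := F) (R := (Rel.lt : LC.Relations 2))
      (t₁ := Term.var 0) (t₂ := Term.var 1) (v := x)).symm
  exact h0.preimage_map (F := fun w => ![f w, g w]) (by
    intro i
    fin_cases i
    · exact hf
    · exact hg)

theorem DS.eq {κ : Type} {f g : (κ → F) → F} (hf : DF lt P f) (hg : DF lt P g) :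
    DS lt P {w | f w = g w} := by
  let _ := strC lt P
  exact DefinableFun.ofPred_eq hf hg

theorem DS.inter {κ : Type} {s t : Set (κ → F)} (hs : DS lt P s) (ht : DS lt P t) :
    DS lt P (s ∩ t) := by
  let _ := strC lt P
  exact Set.Definable.inter hs ht

theorem DS.union {κ : Type} {s t : Set (κ → F)} (hs : DS lt P s) (ht : DS lt P t) :
    DS lt P (s ∪ t) := by
  let _ := strC lt P
  exact Set.Definable.union hs ht

theorem DS.compl {κ : Type} {s : Set (κ → F)} (hs : DS lt P s) : DS lt P sᶜ := by
  let _ := strC lt P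
  exact Set.Definable.compl hs

theorem DS.univ {κ : Type} : DS lt P (Set.univ : Set (κ → F)) := by
  let _ := strC lt P
  exact Set.definable_univ

theorem DS.forall {κ ι : Type} [Finite ι] {s : ι → Set (κ → F)} (hs : ∀ i, DS lt P (s i)) :
    DS lt P {w | ∀ i, w ∈ s i} := by
  let _ := strC lt P
  have := Set.definable_iInter_of_finite hs
  have e : {w | ∀ i, w ∈ s i} = ⋂ i, s i := by
    ext w
    simp
  show Set.Definable _ _ _
  rw [e]
  exact this

theorem DS.exists {κ ι : Type} [Finite ι] {s : ι → Set (κ → F)} (hs : ∀ i, DS lt P (s i)) :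
    DS lt P {w | ∃ i, w ∈ s i} := by
  let _ := strC lt P
  have := Set.definable_iUnion_of_finite hs
  have e : {w | ∃ i, w ∈ s i} = ⋃ i, s i := by
    ext w
    simp
  show Set.Definable _ _ _
  rw [e]
  exact this

theorem DS.imp {κ : Type} (p : Prop) {s : Set (κ → F)} (hs : DS lt P s) :
    DS lt P {w | p → w ∈ s} := by
  by_cases hp : p
  · convert hs using 1
    ext w
    simp [hp]
  · convert (DS.univ : DS lt P (Set.univ : Set (κ → F))) using 1
    ext w
    simp [hp]

theorem hh_eq {n : ℕ} (x : Fin (n + 1) → Fin 2 → F) :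
    hh x = x 0 1 + ∑ i : Fin n, ∑ j : Fin 2, x i.succ j * x 0 0 ^ (2 * (i : ℕ) + j) := by
  rw [hh, qpoly, Polynomial.eval_finsetSum]
  simp only [Polynomial.eval_finsetSum, Polynomial.eval_monomial]

theorem DF.hh {κ : Type} {n : ℕ} {f : Fin (n + 1) → Fin 2 → (κ → F) → F}
    (hf : ∀ i j, DF lt P (f i j)) : DF lt P fun w => hh fun i j => f i j w := by
  have : (fun w => Pool.Agent.R612.HG.hh fun i j => f i j w) = fun w => f 0 1 w +
      ∑ i : Fin n, ∑ j : Fin 2, f i.succ j w * f 0 0 w ^ (2 * (i : ℕ) + j) := by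
    funext w
    rw [hh_eq]
  rw [this]
  exact (hf 0 1).add (DF.sum _ fun i => DF.sum _ fun j => (hf i.succ j).mul ((hf 0 0).pow _))

theorem DS.prec {κ : Type} {f g : Fin 2 → (κ → F) → F} (hf : ∀ i, DF lt P (f i))
    (hg : ∀ i, DF lt P (g i)) : DS lt P {w | prec lt (fun i => f i w) fun i => g i w} :=
  (DS.ltR (hg 0) (hf 0)).union ((DS.eq (hf 0) (hg 0)).inter (DS.ltR (hg 1) (hf 1)))

theorem DS.RR {κ : Type} (e : F) {n : ℕ} {f : Fin (n + 1) → Fin 2 → (κ → F) → F}
    (hf : ∀ i j, DF lt P (f i j)) : DS lt P {w | RR lt e fun i j => f i j w} := by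
  have h : ∀ σ : Equiv.Perm (Fin (n + 1)), DS lt P
      ({w | ∀ i, w ∈ {w | ∀ j, w ∈ {w | i < j → w ∈ {w |
        Pool.Agent.R612.HG.prec lt (fun l => f (σ i) l w) fun l => f (σ j) l w}}}} ∩
      {w | Pool.Agent.R612.HG.ltR lt (Pool.Agent.R612.HG.hh fun i j => f (σ i) j w) e}) :=
    fun σ => (DS.forall fun i => DS.forall fun j => DS.imp _ (DS.prec (hf _) (hf _))).inter
      (DS.ltR (DF.hh fun i j => hf (σ i) j) (DF.const e))
  exact DS.exists h

end Pool.Agent.R612.HG
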