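import Pool.Agent.R612.HG.Variety

/-!
The random hypergraph.
-/

set_option autoImplicit false

universe u

namespace Pool.Agent.R612.HG

variable {F : Type u} [Field F]

/-- the order on the nonzero elements, as a relation on the field -/
def ltR (lt : Fˣ → Fˣ → Prop) (a b : F) : Prop := ∃ c d : Fˣ, (c : F) = a ∧ (d : F) = b ∧ lt c d

theorem ltR_coe {lt : Fˣ → Fˣ → Prop} (a b : Fˣ) : ltR lt (a : F) (b : F) ↔ lt a b := by
  constructor
  · rintro ⟨c, d, hc, hd, h⟩
    rwa [Units.ext hc, Units.ext hd] at h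
  · intro h
    exact ⟨a, b, rfl, rfl, h⟩

/-- `x` is lexicographically larger than `y` -/
def prec (lt : Fˣ → Fˣ → Prop) (x y : Fin 2 → F) : Prop :=
  ltR lt (y 0) (x 0) ∨ (x 0 = y 0 ∧ ltR lt (y 1) (x 1))

/-- the polynomial with coefficients `a i j` -/
noncomputable def qpoly {n : ℕ} (a : Fin n → Fin 2 → F) : Polynomial F :=
  ∑ i : Fin n, ∑ j : Fin 2, Polynomial.monomial (2 * (i : ℕ) + j) (a i j)

theorem qpoly_coeff {n : ℕ} (a : Fin n → Fin 2 → F) (i : Fin n) (j : Fin 2) :
    (qpoly a).coeff (2 * (i : ℕ) + j) = a i j := by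
  rw [qpoly, Polynomial.finsetSum_coeff, Finset.sum_eq_single i, Polynomial.finsetSum_coeff,
    Finset.sum_eq_single j, Polynomial.coeff_monomial, if_pos rfl]
  · intro j' _ hj
    rw [Polynomial.coeff_monomial, if_neg]
    intro h
    apply hj
    apply Fin.ext
    omega
  · simp
  · intro i' _ hi
    rw [Polynomial.finsetSum_coeff]
    apply Finset.sum_eq_zero
    intro j' _
    rw [Polynomial.coeff_monomial, if_neg]
    intro h
    apply hi
    apply Fin.ext
    have := j.2
    have := j'.2
    omega
  · simp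

theorem qpoly_inj {n : ℕ} {a b : Fin n → Fin 2 → F} (h : qpoly a = qpoly b) : a = b := by
  funext i j
  rw [← qpoly_coeff a i j, h, qpoly_coeff]

/-- the value whose position is used -/
noncomputable def hh {n : ℕ} (x : Fin (n + 1) → Fin 2 → F) : F :=
  x 0 1 + (qpoly fun i => x i.succ).eval (x 0 0)

/-- the hypergraph relation -/
def RR (lt : Fˣ → Fˣ → Prop) (e : F) {n : ℕ} (x : Fin (n + 1) → Fin 2 → F) : Prop :=
  ∃ σ : Equiv.Perm (Fin (n + 1)), (∀ i j, i < j → prec lt (x (σ i)) (x (σ j))) ∧
    ltR lt (hh fun i => x (σ i)) e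

theorem open_between {lt : Fˣ → Fˣ → Prop} (c d : Fˣ) :
    @IsOpen Fˣ (ordTop lt) {a | lt c a ∧ lt a d} :=
  TopologicalSpace.isOpen_generateFrom_of_mem (Or.inr ⟨c, d, rfl⟩)

theorem open_initial {lt : Fˣ → Fˣ → Prop} (d : Fˣ) :
    @IsOpen Fˣ (ordTop lt) {a | (a = 1 ∨ lt 1 a) ∧ lt a d} :=
  TopologicalSpace.isOpen_generateFrom_of_mem (Or.inl ⟨d, rfl⟩)

theorem OrdFacts.exists_bound {lt : Fˣ → Fˣ → Prop} (h : OrdFacts lt) {B : Set Fˣ}
    (hB : B.Finite) : ∃ c, ∀ a ∈ B, lt a c := by
  induction B, hB using Set.Finite.induction_on with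
  | empty => exact ⟨1, by simp⟩
  | @insert a B _ _ ih =>
    obtain ⟨c, hc⟩ := ih
    rcases h.trich a c with h1 | h1 | h1
    · exact ⟨c, fun b hb => by
        rcases hb with rfl | hb
        · exact h1
        · exact hc b hb⟩
    · obtain ⟨d, hd⟩ := h.noMax c
      refine ⟨d, fun b hb => ?_⟩
      rcases hb with rfl | hb
      · rw [h1]
        exact hd
      · exact h.trans _ _ _ (hc b hb) hd
    · obtain ⟨d, hd⟩ := h.noMax a
      refine ⟨d, fun b hb => ?_⟩
      rcases hb with rfl | hb
      · exact hd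
      · exact h.trans _ _ _ (hc b hb) (h.trans _ _ _ h1 hd)

theorem prec_sto {lt : Fˣ → Fˣ → Prop} (h : OrdFacts lt) {X : Type u} (val : X → Fin 2 → F)
    (hinj : Function.Injective val) (hval : ∀ x i, val x i ≠ 0) :
    IsStrictTotalOrder X fun x y => prec lt (val x) (val y) := by
  have e : ∀ x i, val x i = ((Units.mk0 _ (hval x i) : Fˣ) : F) := fun x i => rfl
  have hirr : ∀ x i, ¬ ltR lt (val x i) (val x i) := by
    intro x i
    rw [e x i, ltR_coe]
    exact h.irrefl _
  have htr : ∀ x y z i, ltR lt (val x i) (val y i) → ltR lt (val y i) (val z i) →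
      ltR lt (val x i) (val z i) := by
    intro x y z i
    rw [e x i, e y i, e z i, ltR_coe, ltR_coe, ltR_coe]
    exact h.trans _ _ _
  have htri : ∀ x y i, ltR lt (val x i) (val y i) ∨ (val x i = val y i ∨
      ltR lt (val y i) (val x i)) := by
    intro x y i
    rw [e x i, e y i, ltR_coe, ltR_coe]
    rcases h.trich (Units.mk0 _ (hval x i)) (Units.mk0 _ (hval y i)) with h1 | h1 | h1
    · exact Or.inl h1
    · exact Or.inr (Or.inl (congrArg _ h1))
    · exact Or.inr (Or.inr h1)
  refine { trichotomous := ?_, irrefl := ?_, trans := ?_ }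
  · intro x y h1 h2
    unfold prec at h1 h2
    push Not at h1 h2
    rcases htri x y 0 with h3 | h3 | h3
    · exact absurd h3 h2.1
    · rcases htri x y 1 with h4 | h4 | h4
      · exact absurd h4 (h2.2 h3.symm)
      · apply hinj
        funext i
        fin_cases i
        · exact h3
        · exact h4
      · exact absurd h4 (h1.2 h3)
    · exact absurd h3 h1.1
  · rintro x (h1 | ⟨-, h1⟩)
    · exact hirr x 0 h1
    · exact hirr x 1 h1
  · rintro x y z (h1 | ⟨h1, h2⟩) (h3 | ⟨h3, h4⟩)
    · exact Or.inl (htr z y x 0 h3 h1)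
    · left
      rw [← h3]
      exact h1
    · left
      rw [h1]
      exact h3
    · exact Or.inr ⟨h1.trans h3, htr z y x 1 h4 h2⟩

/-- **the hypergraph is random** -/
theorem random {lt : Fˣ → Fˣ → Prop} {P : (n : ℕ) → Fin n → Fˣ → Prop} (h : IsACFO F lt P)
    {e : Fˣ} (he : lt 1 e) {X : Type u} (val : X → Fin 2 → F) (hinj : Function.Injective val)
    (hval : ∀ x i, val x i ≠ 0) (hsurj : ∀ v : Fin 2 → Fˣ, ∃ x : X, ∀ i, val x i = v i) {n : ℕ}
    (hn : 0 < n) : IsRandomHypergraph fun x : Fin (n + 1) → X => RR lt (e : F) fun i => val (x i) where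
  symm := by
    rintro τ x ⟨σ, h1, h2⟩
    refine ⟨σ.trans τ.symm, fun i j hij => ?_, ?_⟩
    · simpa using h1 i j hij
    · simpa using h2
  distinct := by
    rintro x ⟨σ, h1, -⟩ a b hab
    by_contra hne
    have hsto := prec_sto h.ordFacts val hinj hval
    have key : ∀ a b : Fin (n + 1), x a = x b → σ.symm a < σ.symm b → False := by
      intro a b hab hlt
      have h2 : prec lt (val (x (σ (σ.symm a)))) (val (x (σ (σ.symm b)))) := h1 _ _ hlt
      rw [Equiv.apply_symm_apply, Equiv.apply_symm_apply, hab] at h2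
      exact hsto.irrefl _ h2
    rcases lt_trichotomy (σ.symm a) (σ.symm b) with h2 | h2 | h2
    · exact key a b hab h2
    · exact hne (σ.symm.injective h2)
    · exact key b a hab.symm h2
  extension := by
    classical
    intro 𝒜 ℬ hA hB hAB hcard
    have hord := h.ordFacts
    have hnonempty : Nonempty X := ⟨(hsurj fun _ => 1).choose⟩
    have hsto := prec_sto h.ordFacts val hinj hval
    let _ : LinearOrder X := linearOrderOfSTO fun x y => prec lt (val x) (val y)
    have hltdef : ∀ x y : X, x < y ↔ prec lt (val x) (val y) := fun x y => Iff.rfl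
    -- sorted enumerations
    have hen : ∀ s ∈ 𝒜 ∪ ℬ, ∃ a : Fin n → X, StrictMono a ∧ Set.range a = s := by
      intro s hs
      obtain ⟨hf, hc⟩ := hcard s hs
      have hc' : hf.toFinset.card = n := by rw [← Set.ncard_eq_toFinset_card s hf, hc]
      refine ⟨hf.toFinset.orderEmbOfFin hc', (hf.toFinset.orderEmbOfFin hc').strictMono, ?_⟩
      rw [Finset.range_orderEmbOfFin]
      simp
    choose! a ha1 ha2 using hen
    -- enumeration of the families
    have hfin : (𝒜 ∪ ℬ).Finite := hA.union hB
    obtain ⟨k, t, ht1, ht2⟩ : ∃ (k : ℕ) (t : Fin k → Set X), Function.Injective t ∧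
        Set.range t = 𝒜 ∪ ℬ := by
      refine ⟨hfin.toFinset.card, fun i => (hfin.toFinset.equivFin.symm i : Set X), ?_, ?_⟩
      · intro i j hij
        exact hfin.toFinset.equivFin.symm.injective (Subtype.ext hij)
      · ext s
        constructor
        · rintro ⟨i, rfl⟩
          have := (hfin.toFinset.equivFin.symm i).2
          rwa [Set.Finite.mem_toFinset] at this
        · intro hs
          refine ⟨hfin.toFinset.equivFin ⟨s, by rwa [Set.Finite.mem_toFinset]⟩, ?_⟩
          simp
    have ht : ∀ j, t j ∈ 𝒜 ∪ ℬ := fun j => ht2 ▸ Set.mem_range_self j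
    -- the bound
    have hbd : (⋃ s ∈ 𝒜 ∪ ℬ, (fun x => Units.mk0 _ (hval x 0)) '' s).Finite :=
      hfin.biUnion fun s hs => (hcard s hs).1.image _
    obtain ⟨c, hc⟩ := hord.exists_bound hbd
    obtain ⟨c', hc'⟩ := hord.noMax c
    obtain ⟨c'', hc''⟩ := hord.dense c c' hc'
    obtain ⟨e', he'⟩ := hord.noMax e
    obtain ⟨e'', he''⟩ := hord.dense e e' he'
    -- the polynomials
    set q : Fin (k + 1) → Polynomial F :=
      Fin.cons 0 fun j => qpoly fun i => val (a (t j) i) with hq
    have hq0 : q 0 = 0 := rfl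
    have hqj : ∀ j : Fin k, q j.succ = qpoly fun i => val (a (t j) i) := fun j => rfl
    have hqne : ∀ j : Fin k, q j.succ ≠ 0 := by
      intro j hj
      have h1 := qpoly_coeff (fun i => val (a (t j) i)) ⟨0, hn⟩ 0
      rw [← hqj, hj, Polynomial.coeff_zero] at h1
      exact hval _ _ h1.symm
    have hqinj : Function.Injective q := by
      intro i j
      refine Fin.cases ?_ (fun i => ?_) i
      · refine Fin.cases (fun _ => rfl) (fun j hij => ?_) j
        exact absurd hij.symm (hqne j)
      · refine Fin.cases (fun hij => ?_) (fun j hij => ?_) j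
        · exact absurd hij (hqne i)
        · rw [hqj, hqj] at hij
          have h1 := qpoly_inj hij
          have h2 : a (t i) = a (t j) := by
            funext l
            exact hinj (congrFun h1 l)
          have h3 : t i = t j := by
            rw [← ha2 _ (ht i), ← ha2 _ (ht j), h2]
          rw [ht1 h3]
    -- the open sets
    set U : Fin (k + 2) → Set Fˣ := Fin.cons {b | lt c b ∧ lt b c'}
      (Fin.cons {b | lt c b ∧ lt b c'} fun j => if t j ∈ 𝒜 then {b | (b = 1 ∨ lt 1 b) ∧ lt b e}
        else {b | lt e b ∧ lt b e'}) with hU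
    have hUopen : ∀ i, @IsOpen Fˣ (ordTop lt) (U i) := by
      intro i
      refine Fin.cases ?_ (fun i => ?_) i
      · exact open_between _ _
      · refine Fin.cases ?_ (fun j => ?_) i
        · exact open_between _ _
        · show @IsOpen Fˣ (ordTop lt) (if t j ∈ 𝒜 then {b | (b = 1 ∨ lt 1 b) ∧ lt b e}
            else {b | lt e b ∧ lt b e'})
          split_ifs
          · exact open_initial _
          · exact open_between _ _
    have hUne : ∀ i, (U i).Nonempty := by
      intro i
      refine Fin.cases ?_ (fun i => ?_) i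
      · exact ⟨c'', hc''⟩
      · refine Fin.cases ?_ (fun j => ?_) i
        · exact ⟨c'', hc''⟩
        · show (if t j ∈ 𝒜 then {b | (b = 1 ∨ lt 1 b) ∧ lt b e}
            else {b | lt e b ∧ lt b e'}).Nonempty
          split_ifs
          · exact ⟨1, Or.inl rfl, he⟩
          · exact ⟨e'', he''⟩
    obtain ⟨w, hw0, hw⟩ := exists_point h hq0 hqinj U hUopen hUne
    obtain ⟨v, hv⟩ := hsurj w
    have hw0' : lt c (w 0) ∧ lt (w 0) c' := hw0
    -- `v` is before all the other elements
    have hbefore : ∀ s ∈ 𝒜 ∪ ℬ, ∀ x ∈ s, v < x := by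
      intro s hs x hx
      rw [hltdef]
      left
      have h1 : lt (Units.mk0 _ (hval x 0)) c :=
        hc _ (Set.mem_iUnion₂.2 ⟨s, hs, x, hx, rfl⟩)
      rw [hv 0]
      exact (ltR_coe (Units.mk0 _ (hval x 0)) (w 0)).2 (hord.trans _ _ _ h1 hw0'.1)
    have hsorted : ∀ j, StrictMono (Fin.cons v (a (t j)) : Fin (n + 1) → X) := by
      intro j x y hxy
      revert hxy
      refine Fin.cases ?_ (fun x => ?_) x
      · refine Fin.cases (fun h => absurd h (lt_irrefl _)) (fun y _ => ?_) y
        rw [Fin.cons_zero, Fin.cons_succ]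
        refine hbefore _ (ht j) _ ?_
        have := Set.mem_range_self (f := a (t j)) y
        rwa [ha2 _ (ht j)] at this
      · refine Fin.cases (fun h => absurd h (by simp)) (fun y h => ?_) y
        rw [Fin.cons_succ, Fin.cons_succ]
        exact ha1 _ (ht j) (Fin.succ_lt_succ_iff.1 h)
    have hvalue : ∀ j, ∃ b ∈ U (Fin.succ (Fin.succ j)),
        (b : F) = hh fun i => val ((Fin.cons v (a (t j)) : Fin (n + 1) → X) i) := by
      intro j
      obtain ⟨b, hb, hb'⟩ := hw j.succ
      refine ⟨b, hb, ?_⟩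
      rw [hb', hqj, hh]
      simp only [Fin.cons_zero, Fin.cons_succ]
      rw [hv 0, hv 1]
    -- every enumeration is a permutation of the sorted one
    have hperm : ∀ (j : Fin k) (x : Fin n → X), Set.range x = t j → ∀ σ : Equiv.Perm (Fin (n + 1)),
        StrictMono (fun i => (Fin.cons v x : Fin (n + 1) → X) (σ i)) →
          (fun i => (Fin.cons v x : Fin (n + 1) → X) (σ i)) = Fin.cons v (a (t j)) := by
      intro j x hx σ hσ
      refine (StrictMono.range_inj hσ (hsorted j)).1 ?_
      have h1 : (fun i => (Fin.cons v x : Fin (n + 1) → X) (σ i)) =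
          (Fin.cons v x : Fin (n + 1) → X) ∘ σ := rfl
      rw [h1, Set.range_comp, Equiv.range_eq_univ, Set.image_univ, Fin.range_cons, Fin.range_cons,
        hx, ha2 _ (ht j)]
    refine ⟨v, fun s hs hvs => lt_irrefl _ (hbefore s hs v hvs), ?_, ?_⟩
    · intro x hx hxA
      obtain ⟨j, hj⟩ : Set.range x ∈ Set.range t := by
        rw [ht2]
        exact Or.inl hxA
      have hcinj : Function.Injective (Fin.cons v x : Fin (n + 1) → X) := by
        rw [Fin.cons_injective_iff]
        refine ⟨fun hmem => ?_, hx⟩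
        exact lt_irrefl _ (hbefore _ (Or.inl hxA) v hmem)
      have hrange : Set.range (Fin.cons v x : Fin (n + 1) → X) =
          Set.range (Fin.cons v (a (t j)) : Fin (n + 1) → X) := by
        rw [Fin.range_cons, Fin.range_cons, ha2 _ (ht j), hj]
      -- the permutation
      have hex : ∀ i, ∃ i', (Fin.cons v x : Fin (n + 1) → X) i' =
          (Fin.cons v (a (t j)) : Fin (n + 1) → X) i := by
        intro i
        have : (Fin.cons v (a (t j)) : Fin (n + 1) → X) i ∈
            Set.range (Fin.cons v x : Fin (n + 1) → X) := by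
          rw [hrange]
          exact Set.mem_range_self i
        exact this
      choose f hf using hex
      have hfinj : Function.Injective f := by
        intro i i' hii
        apply (hsorted j).injective
        rw [← hf, ← hf, hii]
      set σ : Equiv.Perm (Fin (n + 1)) := Equiv.ofBijective f (Finite.injective_iff_bijective.1 hfinj)
        with hσ
      have hσf : ∀ i, (Fin.cons v x : Fin (n + 1) → X) (σ i) =
          (Fin.cons v (a (t j)) : Fin (n + 1) → X) i := fun i => hf i
      refine ⟨σ, fun i i' hii => ?_, ?_⟩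
      · show prec lt (val ((Fin.cons v x : Fin (n + 1) → X) (σ i)))
          (val ((Fin.cons v x : Fin (n + 1) → X) (σ i')))
        rw [hσf, hσf]
        exact (hltdef _ _).1 (hsorted j hii)
      · obtain ⟨b, hb, hb'⟩ := hvalue j
        have h1 : (fun i => val ((Fin.cons v x : Fin (n + 1) → X) (σ i))) =
            fun i => val ((Fin.cons v (a (t j)) : Fin (n + 1) → X) i) :=
          funext fun i => congrArg val (hσf i)
        rw [h1, ← hb']
        have hb2 : b ∈ (if t j ∈ 𝒜 then {b | (b = 1 ∨ lt 1 b) ∧ lt b e}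
            else {b | lt e b ∧ lt b e'}) := hb
        rw [if_pos (by rw [hj]; exact hxA)] at hb2
        exact (ltR_coe b e).2 hb2.2
    · rintro x hx hxB ⟨σ, h1, h2⟩
      obtain ⟨j, hj⟩ : Set.range x ∈ Set.range t := by
        rw [ht2]
        exact Or.inr hxB
      have hmono : StrictMono (fun i => (Fin.cons v x : Fin (n + 1) → X) (σ i)) :=
        fun i i' hii => (hltdef _ _).2 (h1 i i' hii)
      have h3 := hperm j x hj.symm σ hmono
      obtain ⟨b, hb, hb'⟩ := hvalue j
      have h4 : (fun i => val ((Fin.cons v x : Fin (n + 1) → X) (σ i))) =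
          fun i => val ((Fin.cons v (a (t j)) : Fin (n + 1) → X) i) :=
        funext fun i => congrArg val (congrFun h3 i)
      rw [h4, ← hb', ltR_coe] at h2
      have hb2 : b ∈ (if t j ∈ 𝒜 then {b | (b = 1 ∨ lt 1 b) ∧ lt b e}
          else {b | lt e b ∧ lt b e'}) := hb
      rw [if_neg (by
        rw [hj]
        exact fun hA' => Set.disjoint_left.1 hAB hA' hxB)] at hb2
      exact hord.irrefl _ (hord.trans _ _ _ hb2.1 h2)

end Pool.Agent.R612.HG
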