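import Pool.Agent.R612.HG.Circle

/-!
The varieties used for the extension property.
-/

set_option autoImplicit false

universe u

namespace Pool.Agent.R612.HG

open MvPolynomial

variable {F : Type u} [Field F]

/-- the polynomial `X₁ + q(X₀)` -/
noncomputable def LL (q : Polynomial F) : MvPolynomial (Fin 2) F := X 1 + Polynomial.aeval (X 0) q

theorem eval_LL (q : Polynomial F) (v : Fin 2 → F) : eval v (LL q) = v 1 + q.eval (v 0) := by
  have h : eval v (Polynomial.aeval (X 0 : MvPolynomial (Fin 2) F) q) = q.eval (v 0) := by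
    rw [Polynomial.aeval_def, Polynomial.hom_eval₂, eval_X]
    have : (eval v).comp (algebraMap F (MvPolynomial (Fin 2) F)) = RingHom.id F := by
      ext a
      simp [algebraMap_eq]
    rw [this, Polynomial.eval₂_id]
  rw [LL, map_add, eval_X, h]

/-- the endomorphism `X₁ ↦ X₁ + q(X₀)` -/
noncomputable def sh (q : Polynomial F) : MvPolynomial (Fin 2) F →ₐ[F] MvPolynomial (Fin 2) F :=
  aeval fun i : Fin 2 => if i = 0 then X 0 else LL q

theorem sh_zero (q : Polynomial F) : sh q (X 0) = X 0 := by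
  rw [sh, aeval_X, if_pos rfl]

theorem sh_one (q : Polynomial F) : sh q (X 1) = LL q := by
  rw [sh, aeval_X, if_neg (by decide)]

theorem sh_aeval (q r : Polynomial F) :
    sh q (Polynomial.aeval (X 0) r) = Polynomial.aeval (X 0) r := by
  rw [← Polynomial.aeval_algHom_apply, sh_zero]

theorem sh_comp (q : Polynomial F) : (sh q).comp (sh (-q)) = AlgHom.id F _ := by
  apply algHom_ext
  intro i
  rcases Fin.exists_fin_two.1 ⟨i, rfl⟩ with h | h
  · rw [h, AlgHom.comp_apply, sh_zero, sh_zero, AlgHom.id_apply]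
  · rw [h, AlgHom.comp_apply, sh_one, LL, map_add, sh_one, sh_aeval, LL, map_neg,
      AlgHom.id_apply, add_neg_cancel_right]

/-- the automorphism `X₁ ↦ X₁ + q(X₀)` -/
noncomputable def shear (q : Polynomial F) : MvPolynomial (Fin 2) F ≃ₐ[F] MvPolynomial (Fin 2) F :=
  AlgEquiv.ofAlgHom (sh q) (sh (-q)) (sh_comp q) (by
    have := sh_comp (-q)
    rwa [neg_neg] at this)

theorem prime_LL (q : Polynomial F) : Prime (LL q) := by
  have h : shear q (X 1) = LL q := sh_one q
  rw [← h]
  exact (MulEquiv.prime_iff (shear q).toMulEquiv).2 X_prime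

theorem LL_dvd_LL [Infinite F] {q q' : Polynomial F} (h : LL q ∣ LL q') : q = q' := by
  obtain ⟨r, hr⟩ := h
  apply Polynomial.funext
  intro a
  have h1 := congrArg (eval ![a, -q.eval a]) hr
  rw [map_mul, eval_LL, eval_LL] at h1
  simp only [Matrix.cons_val_zero, Matrix.cons_val_one] at h1
  rw [neg_add_cancel, zero_mul] at h1
  linear_combination -h1

theorem not_X_dvd_LL (q : Polynomial F) : ¬ (X 0 : MvPolynomial (Fin 2) F) ∣ LL q := by
  rintro ⟨r, hr⟩
  have h1 := congrArg (eval ![0, 1 - q.eval 0]) hr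
  rw [map_mul, eval_LL, eval_X] at h1
  simp only [Matrix.cons_val_zero, Matrix.cons_val_one] at h1
  rw [sub_add_cancel, zero_mul] at h1
  exact one_ne_zero h1

theorem not_LL_dvd_X (q : Polynomial F) : ¬ LL q ∣ (X 0 : MvPolynomial (Fin 2) F) := by
  rintro ⟨r, hr⟩
  have h1 := congrArg (eval ![1, - q.eval 1]) hr
  rw [map_mul, eval_LL, eval_X] at h1
  simp only [Matrix.cons_val_zero, Matrix.cons_val_one] at h1
  rw [neg_add_cancel, zero_mul] at h1
  exact one_ne_zero h1

/-- the coordinate functions -/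
noncomputable def gg {k : ℕ} (q : Fin (k + 1) → Polynomial F) :
    Fin (k + 2) → MvPolynomial (Fin 2) F :=
  Fin.cons (X 0) fun j => LL (q j)

theorem gg_prime {k : ℕ} (q : Fin (k + 1) → Polynomial F) (i : Fin (k + 2)) : Prime (gg q i) := by
  refine Fin.cases ?_ (fun j => ?_) i
  · exact X_prime
  · exact prime_LL _

theorem gg_dvd [Infinite F] {k : ℕ} {q : Fin (k + 1) → Polynomial F} (hq : Function.Injective q)
    {i j : Fin (k + 2)} (h : gg q i ∣ gg q j) : i = j := by
  revert h
  refine Fin.cases ?_ (fun i => ?_) i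
  · refine Fin.cases (fun _ => rfl) (fun j h => ?_) j
    exact absurd h (not_X_dvd_LL _)
  · refine Fin.cases (fun h => ?_) (fun j h => ?_) j
    · exact absurd h (not_LL_dvd_X _)
    · exact congrArg Fin.succ (hq (LL_dvd_LL h))

/-- the graph -/
def VV {k : ℕ} (q : Fin (k + 1) → Polynomial F) : Set (Fin (k + 2) → F) :=
  {x | ∃ v : Fin 2 → F, ∀ i, x i = eval v (gg q i)}

theorem VV_quasiAffine {k : ℕ} {q : Fin (k + 1) → Polynomial F} (hq : q 0 = 0) :
    QuasiAffine (VV q) := by
  have hev : ∀ (v : Fin 2 → F) (f : MvPolynomial (Fin (k + 2)) F),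
      eval v (aeval (gg q) f) = eval (fun i => eval v (gg q i)) f := by
    intro v f
    have : (eval v).comp (aeval (gg q) : MvPolynomial (Fin (k + 2)) F →ₐ[F] _).toRingHom =
        eval (fun i => eval v (gg q i)) := by
      apply ringHom_ext
      · intro a
        simp
      · intro i
        simp
    exact RingHom.congr_fun this f
  refine ⟨⟨_, 0, fun i => rfl⟩,
    RingHom.ker (aeval (gg q) : MvPolynomial (Fin (k + 2)) F →ₐ[F] MvPolynomial (Fin 2) F), ⊤,
    RingHom.ker_isPrime _, ?_⟩
  ext x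
  constructor
  · rintro ⟨v, hv⟩
    refine ⟨fun f hf => ?_, fun h => ?_⟩
    · have : x = fun i => eval v (gg q i) := funext hv
      rw [this, ← hev, (RingHom.mem_ker).1 hf, map_zero]
    · have := h 1 trivial
      rw [map_one] at this
      exact one_ne_zero this
  · rintro ⟨h, -⟩
    refine ⟨![x 0, x 1], fun i => ?_⟩
    have hker : (X i - rename ![(0 : Fin (k + 2)), 1] (gg q i) : MvPolynomial (Fin (k + 2)) F) ∈
        RingHom.ker (aeval (gg q) : MvPolynomial (Fin (k + 2)) F →ₐ[F] MvPolynomial (Fin 2) F) := by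
      rw [RingHom.mem_ker, map_sub, aeval_X, aeval_rename]
      have : (gg q) ∘ ![(0 : Fin (k + 2)), 1] = X := by
        funext l
        fin_cases l
        · rfl
        · show gg q 1 = X 1
          have : (1 : Fin (k + 2)) = Fin.succ 0 := rfl
          rw [this, gg, Fin.cons_succ, hq, LL]
          simp
      rw [this, aeval_X_left, AlgHom.id_apply, sub_self]
    have h1 := h _ hker
    rw [map_sub, eval_X, eval_rename] at h1
    have h2 : x ∘ ![(0 : Fin (k + 2)), 1] = ![x 0, x 1] := by
      funext l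
      fin_cases l <;> rfl
    rw [h2] at h1
    exact sub_eq_zero.1 h1

theorem VV_multLarge [Infinite F] {k : ℕ} {q : Fin (k + 1) → Polynomial F}
    (hq : Function.Injective q) : MultLarge (VV q) := by
  intro e he c hsub
  have key : ∏ i, gg q i ^ (e i).toNat = C (c : F) * ∏ i, gg q i ^ (-(e i)).toNat := by
    have h1 : (∏ i, gg q i ^ (e i).toNat - C (c : F) * ∏ i, gg q i ^ (-(e i)).toNat) *
        ∏ i, gg q i = 0 := by
      apply MvPolynomial.funext
      intro v
      rw [map_zero, map_mul, map_sub, map_mul, eval_C, map_prod, map_prod, map_prod]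
      by_cases hv : ∃ i, eval v (gg q i) = 0
      · obtain ⟨i, hi⟩ := hv
        rw [Finset.prod_eq_zero (f := fun i => eval v (gg q i)) (Finset.mem_univ i) hi, mul_zero]
      · push Not at hv
        have h2 : (fun i => Units.mk0 _ (hv i)) ∈ unitPts (VV q) := ⟨v, fun i => rfl⟩
        have h3 := hsub h2
        have h3' : ∏ i, (Units.mk0 _ (hv i)) ^ e i = c := h3
        have h4 : ∏ i, (Units.mk0 _ (hv i)) ^ (e i).toNat =
            c * ∏ i, (Units.mk0 _ (hv i)) ^ (-(e i)).toNat := by
          rw [← h3', ← Finset.prod_mul_distrib]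
          refine Finset.prod_congr rfl fun i _ => ?_
          rw [← zpow_natCast, ← zpow_natCast, ← zpow_add]
          congr 1
          have := Int.toNat_sub_toNat_neg (e i)
          omega
        have h5 := congrArg (Units.val) h4
        rw [Units.val_mul, Units.coe_prod, Units.coe_prod] at h5
        simp only [Units.val_pow_eq_pow_val, Units.val_mk0] at h5
        simp only [map_pow]
        rw [h5, sub_self, zero_mul]
    rcases mul_eq_zero.1 h1 with h2 | h2
    · exact sub_eq_zero.1 h2
    · exfalso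
      rw [Finset.prod_eq_zero_iff] at h2
      obtain ⟨i, -, hi⟩ := h2
      exact (gg_prime q i).ne_zero hi
  have hC : ∀ i, ¬ gg q i ∣ (C (c : F) : MvPolynomial (Fin 2) F) := by
    intro i hi
    refine (gg_prime q i).not_isUnit (isUnit_of_dvd_unit hi ?_)
    exact (c.isUnit).map (C : F →+* MvPolynomial (Fin 2) F)
  obtain ⟨i, hi⟩ := Function.ne_iff.1 he
  rcases lt_or_gt_of_ne hi with h | h
  · have h1 : gg q i ∣ ∏ i, gg q i ^ (e i).toNat := by
      rw [key]
      refine Dvd.dvd.mul_left ?_ _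
      refine (dvd_pow_self _ ?_).trans (Finset.dvd_prod_of_mem _ (Finset.mem_univ i))
      have : e i < 0 := h
      omega
    obtain ⟨j, -, hj⟩ := (gg_prime q i).exists_mem_finset_dvd h1
    have h2 := gg_dvd hq ((gg_prime q i).dvd_of_dvd_pow hj)
    subst h2
    have h3 : (e i).toNat = 0 := by
      have : e i < 0 := h
      omega
    rw [h3, pow_zero] at hj
    exact (gg_prime q i).not_isUnit (isUnit_of_dvd_one hj)
  · have h1 : gg q i ∣ C (c : F) * ∏ i, gg q i ^ (-(e i)).toNat := by
      rw [← key]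
      refine (dvd_pow_self _ ?_).trans (Finset.dvd_prod_of_mem _ (Finset.mem_univ i))
      have : 0 < e i := h
      omega
    rcases (gg_prime q i).dvd_or_dvd h1 with h2 | h2
    · exact hC i h2
    obtain ⟨j, -, hj⟩ := (gg_prime q i).exists_mem_finset_dvd h2
    have h2 := gg_dvd hq ((gg_prime q i).dvd_of_dvd_pow hj)
    subst h2
    have h3 : (-(e i)).toNat = 0 := by
      have : 0 < e i := h
      omega
    rw [h3, pow_zero] at hj
    exact (gg_prime q i).not_isUnit (isUnit_of_dvd_one hj)

/-- **the extension lemma** -/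
theorem exists_point {lt : Fˣ → Fˣ → Prop} {P : (n : ℕ) → Fin n → Fˣ → Prop}
    (h : IsACFO F lt P) {k : ℕ} {q : Fin (k + 1) → Polynomial F} (hq0 : q 0 = 0)
    (hq : Function.Injective q) (U : Fin (k + 2) → Set Fˣ)
    (hU : ∀ i, @IsOpen Fˣ (ordTop lt) (U i)) (hne : ∀ i, (U i).Nonempty) :
    ∃ v : Fin 2 → Fˣ, v 0 ∈ U 0 ∧ ∀ j : Fin (k + 1), ∃ b ∈ U j.succ,
      (b : F) = v 1 + (q j).eval ((v 0 : Fˣ) : F) := by
  have := h.algClosed
  have : Infinite F := IsAlgClosed.instInfinite
  have hd := h.generic (k + 2) (VV q) (VV_quasiAffine hq0) (VV_multLarge hq)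
  let _ : TopologicalSpace Fˣ := ordTop lt
  have hd' : Dense (unitPts (VV q)) := hd
  obtain ⟨x, hxU, v, hv⟩ := hd'.inter_open_nonempty (Set.pi Set.univ U)
    (isOpen_set_pi Set.finite_univ fun i _ => hU i) (Set.univ_pi_nonempty_iff.2 hne)
  have h0 : (x 0 : F) = v 0 := by
    refine (hv 0).trans ?_
    show eval v (X 0) = v 0
    rw [eval_X]
  have h1 : (x (Fin.succ 0) : F) = v 1 := by
    refine (hv (Fin.succ 0)).trans ?_
    show eval v (LL (q 0)) = v 1
    rw [eval_LL, hq0]
    simp
  refine ⟨![x 0, x (Fin.succ 0)], hxU 0 (Set.mem_univ _), fun j =>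
    ⟨x j.succ, hxU j.succ (Set.mem_univ _), ?_⟩⟩
  refine (hv j.succ).trans ?_
  show eval v (LL (q j)) = _
  rw [eval_LL, ← h0, ← h1]
  rfl

end Pool.Agent.R612.HG
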